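import Pool.Agent.Helper96.GP.Basics
import Pool.Agent.Helper9.GP.E4h

open Finset
open scoped Classical

namespace GPG

noncomputable section

variable {L : LS} {P : Par} {pb : ℝ}

theorem NN_le (hG : Good L P pb) (v : ℕ) (C : Finset ℕ) (u : ℕ) (huv : u ≠ v) (B0 h0 : ℕ)
    (hBu : (L.ls.filter (fun i => L.pre i ∧ u ∈ i)).card ≤ B0)
    (hBv : (L.ls.filter (fun i => L.pre i ∧ v ∈ i)).card ≤ B0)
    (h1 : ∀ j ∈ L.ls, u ∈ j → v ∉ j → hh L P v C j v < h0)
    (h2 : ∀ j ∈ L.ls, v ∈ j → u ∉ j → hh L P v C j u < h0) :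
    NN L P v C u ≤ B0 ^ 2 + 2 * B0 * h0 + NC L P v C u := by
  set A := L.ls.filter (fun i => L.pre i ∧ u ∈ i) with hA
  set B := L.ls.filter (fun i => L.pre i ∧ v ∈ i) with hB
  set S1 : Finset ℕ := ((A ×ˢ B).filter (fun q => q.1 ≠ q.2)).biUnion (fun q => q.1 ∩ q.2) with hS1
  set S2 : Finset ℕ := (A.filter (fun i => v ∉ i)).biUnion (fun i =>
    i.filter (fun y => y < tau L P v C ∧ y < v ∧
      ∃ j ∈ L.ls, ¬ L.pre j ∧ y ∈ j ∧ v ∈ j ∧ ∃ x ∈ C, x < y ∧ x ∈ j)) with hS2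
  set S3 : Finset ℕ := (B.filter (fun i => u ∉ i)).biUnion (fun i =>
    i.filter (fun y => y < tau L P v C ∧ y < u ∧
      ∃ j ∈ L.ls, ¬ L.pre j ∧ y ∈ j ∧ u ∈ j ∧ ∃ x ∈ C, x < y ∧ x ∈ j)) with hS3
  set S4 : Finset ℕ := (range (tau L P v C)).filter (fun y => y < u ∧ ¬ L.Coll y u v ∧
    (∃ j ∈ L.ls, ¬ L.pre j ∧ y ∈ j ∧ u ∈ j ∧ ∃ x ∈ C, x < y ∧ x ∈ j) ∧
    (∃ j ∈ L.ls, ¬ L.pre j ∧ y ∈ j ∧ v ∈ j ∧ ∃ x ∈ C, x < y ∧ x ∈ j)) with hS4
  have c1 : S1.card ≤ B0 ^ 2 := by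
    refine le_trans (card_biUnion_le_card_mul _ _ 1 ?_) ?_
    · rintro ⟨i, j⟩ hq
      rw [mem_filter, mem_product, hA, hB, mem_filter, mem_filter] at hq
      rw [card_le_one]
      intro a ha b hb
      rw [mem_inter] at ha hb
      by_contra hab
      exact hq.2 (L.uniq i hq.1.1.1 j hq.1.2.1 a b hab ha.1 hb.1 ha.2 hb.2)
    · rw [mul_one]
      refine le_trans (card_filter_le _ _) ?_
      rw [card_product, pow_two]
      exact Nat.mul_le_mul hBu hBv
  have c2 : S2.card ≤ B0 * h0 := by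
    refine le_trans (card_biUnion_le_card_mul _ _ h0 ?_) ?_
    · intro i hi
      rw [mem_filter, hA, mem_filter] at hi
      exact (h1 i hi.1.1 hi.1.2.2 hi.2).le
    · exact Nat.mul_le_mul_right _ (le_trans (card_filter_le _ _) hBu)
  have c3 : S3.card ≤ B0 * h0 := by
    refine le_trans (card_biUnion_le_card_mul _ _ h0 ?_) ?_
    · intro i hi
      rw [mem_filter, hB, mem_filter] at hi
      exact (h2 i hi.1.1 hi.1.2.2 hi.2).le
    · exact Nat.mul_le_mul_right _ (le_trans (card_filter_le _ _) hBv)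
  have hsub : (range (tau L P v C)).filter (fun y => y < u ∧ L.Hit C y u ∧ L.Hit C y v ∧
      ¬ L.Coll y u v) ⊆ S1 ∪ (S2 ∪ (S3 ∪ S4)) := by
    intro y hy
    rw [mem_filter, mem_range] at hy
    obtain ⟨hyt, hyu, ⟨i, hi, hyi, hui, hai⟩, ⟨j, hj, hyj, hvj, haj⟩, hnc⟩ := hy
    have hvi : v ∉ i := fun h => hnc ⟨i, hi, hyi, hui, h⟩
    have huj : u ∉ j := fun h => hnc ⟨j, hj, hyj, h, hvj⟩
    have hyv : y < v := lt_of_lt_of_le hyt (tau_le v C)
    have hij : i ≠ j := fun h => huj (h ▸ hui)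
    rw [mem_union, mem_union, mem_union]
    by_cases hpi : L.pre i
    · by_cases hpj : L.pre j
      · left
        rw [hS1, mem_biUnion]
        refine ⟨(i, j), ?_, ?_⟩
        · rw [mem_filter, mem_product, hA, hB, mem_filter, mem_filter]
          exact ⟨⟨⟨hi, hpi, hui⟩, ⟨hj, hpj, hvj⟩⟩, hij⟩
        · exact mem_inter.mpr ⟨hyi, hyj⟩
      · right; left
        rw [hS2, mem_biUnion]
        refine ⟨i, ?_, ?_⟩
        · rw [mem_filter, hA, mem_filter]
          exact ⟨⟨hi, hpi, hui⟩, hvi⟩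
        · rw [mem_filter]
          refine ⟨hyi, hyt, hyv, j, hj, hpj, hyj, hvj, ?_⟩
          exact haj.resolve_left hpj
    · by_cases hpj : L.pre j
      · right; right; left
        rw [hS3, mem_biUnion]
        refine ⟨j, ?_, ?_⟩
        · rw [mem_filter, hB, mem_filter]
          exact ⟨⟨hj, hpj, hvj⟩, huj⟩
        · rw [mem_filter]
          refine ⟨hyj, hyt, hyu, i, hi, hpi, hyi, hui, ?_⟩
          exact hai.resolve_left hpi
      · right; right; right
        rw [hS4, mem_filter, mem_range]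
        exact ⟨hyt, hyu, hnc, ⟨i, hi, hpi, hyi, hui, hai.resolve_left hpi⟩,
          ⟨j, hj, hpj, hyj, hvj, haj.resolve_left hpj⟩⟩
  have h3 : NN L P v C u ≤ (S1 ∪ (S2 ∪ (S3 ∪ S4))).card := card_le_card hsub
  have h4 : (S1 ∪ (S2 ∪ (S3 ∪ S4))).card ≤ S1.card + (S2.card + (S3.card + S4.card)) := by
    refine le_trans (card_union_le _ _) (Nat.add_le_add_left ?_ _)
    exact le_trans (card_union_le _ _) (Nat.add_le_add_left (card_union_le _ _) _)
  have h5 : S4.card = NC L P v C u := rfl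
  rw [h5] at h4
  have h6 : 2 * B0 * h0 = B0 * h0 + B0 * h0 := by ring
  omega

/-- block E4m, given `Off_tau_le`, `E4h` and `E4c` for the point `v` -/
theorem E4main_of (hG : Good L P pb) (v : ℕ) (hv : v < L.N) (B0 k1 h0 k2 B Bn : ℕ)
    (hBn : (1 / (1 - pb)) ^ Bn ≤ 1 + P.e1)
    (hB : B0 ^ 2 + 2 * B0 * h0 + B ≤ Bn) (hk1 : k1 < h0) (hk2 : 4 * h0 * k2 < B)
    (hB0 : ∀ u < L.N, (L.ls.filter (fun i => L.pre i ∧ u ∈ i)).card ≤ B0) (R : ℝ)
    (hR0 : 0 ≤ R)
    (hOff : ∀ C u, (run L P C (tau L P v C)).Off u v ≤ (1 / (1 - pb)) ^ (NN L P v C u))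
    (hE4h : ∀ i ∈ L.ls, ∀ w < L.N, w ∉ i →
      Ex L P v (fun C => if h0 ≤ hh L P v C i w then (run L P C v).Z v else 0) *
        ((h0 : ℝ) - k1) ^ k1 ≤ Cst P k1 * R ^ k1)
    (hE4c : ∀ u < L.N, u ≠ v →
      Ex L P v (fun C => if B ≤ NC L P v C u ∧
          (∀ j ∈ L.ls, u ∈ j → v ∉ j → hh L P v C j v < h0) ∧
          (∀ j ∈ L.ls, v ∈ j → u ∉ j → hh L P v C j u < h0)
          then (run L P C v).Z v else 0) *
        ((B : ℝ) - 4 * h0 * k2) ^ k2 ≤ Cst P (2 * k2) * R ^ k2) :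
    Ex L P v (fun C => if ∃ u < L.N, u ≠ v ∧ 1 + P.e1 < (run L P C (tau L P v C)).Off u v
        then (run L P C v).Z v else 0) ≤
      (L.ls.card * L.N : ℝ) * (Cst P k1 * R ^ k1 / ((h0 : ℝ) - k1) ^ k1) +
      (L.N : ℝ) * (Cst P (2 * k2) * R ^ k2 / ((B : ℝ) - 4 * h0 * k2) ^ k2) := by
  set T : Finset (Finset ℕ × ℕ) := (L.ls ×ˢ range L.N).filter (fun q => q.2 ∉ q.1) with hT
  set U : Finset ℕ := (range L.N).filter (fun u => u ≠ v) with hU
  set f : Finset ℕ × ℕ → Finset ℕ → ℝ := fun q C =>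
    if h0 ≤ hh L P v C q.1 q.2 then (run L P C v).Z v else 0 with hf
  set g : ℕ → Finset ℕ → ℝ := fun u C => if B ≤ NC L P v C u ∧
          (∀ j ∈ L.ls, u ∈ j → v ∉ j → hh L P v C j v < h0) ∧
          (∀ j ∈ L.ls, v ∈ j → u ∉ j → hh L P v C j u < h0)
          then (run L P C v).Z v else 0 with hg
  have hf0 : ∀ q C, 0 ≤ f q C := by
    intro q C
    simp only [hf]
    split_ifs
    · exact Z_nonneg hG C v v
    · exact le_refl _
  have hg0 : ∀ u C, 0 ≤ g u C := by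
    intro u C
    simp only [hg]
    split_ifs
    · exact Z_nonneg hG C v v
    · exact le_refl _
  have hfT : ∀ C, ∀ q ∈ T, f q C ≤ ∑ q ∈ T, f q C := fun C q hq =>
    single_le_sum (f := fun q => f q C) (fun q _ => hf0 q C) hq
  have hgU : ∀ C, ∀ u ∈ U, g u C ≤ ∑ u ∈ U, g u C := fun C u hu =>
    single_le_sum (f := fun u => g u C) (fun u _ => hg0 u C) hu
  have hfs : ∀ C, 0 ≤ ∑ q ∈ T, f q C := fun C => sum_nonneg fun q _ => hf0 q C
  have hgs : ∀ C, 0 ≤ ∑ u ∈ U, g u C := fun C => sum_nonneg fun u _ => hg0 u C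
  have hpb1 : (1 : ℝ) ≤ 1 / (1 - pb) := by
    have h1 := hG.pb0
    have h2 := hG.pb2
    rw [le_div_iff₀ (by linarith)]
    linarith
  have hpt : ∀ C, C ⊆ range v → wt L P v C ≠ 0 →
      (if ∃ u < L.N, u ≠ v ∧ 1 + P.e1 < (run L P C (tau L P v C)).Off u v
        then (run L P C v).Z v else 0) ≤ (∑ q ∈ T, f q C) + ∑ u ∈ U, g u C := by
    intro C _ _
    split_ifs with hex
    · obtain ⟨u, hu, huv, hoff⟩ := hex
      by_cases h1 : ∀ j ∈ L.ls, u ∈ j → v ∉ j → hh L P v C j v < h0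
      · by_cases h2 : ∀ j ∈ L.ls, v ∈ j → u ∉ j → hh L P v C j u < h0
        · have hNN := NN_le hG v C u huv B0 h0 (hB0 u hu) (hB0 v hv) h1 h2
          have hlt : Bn < NN L P v C u := by
            by_contra hcon
            push Not at hcon
            have h3 := hOff C u
            have h4 : (1 / (1 - pb)) ^ (NN L P v C u) ≤ (1 / (1 - pb)) ^ Bn :=
              pow_le_pow_right₀ hpb1 hcon
            linarith
          have hBN : B ≤ NC L P v C u := by omega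
          have h5 : g u C = (run L P C v).Z v := by
            simp only [hg]
            rw [if_pos ⟨hBN, h1, h2⟩]
          have h6 := hgU C u (by rw [hU, mem_filter, mem_range]; exact ⟨hu, huv⟩)
          have h7 := hfs C
          linarith
        · push Not at h2
          obtain ⟨j, hj, hvj, huj, hh2⟩ := h2
          have h5 : f (j, u) C = (run L P C v).Z v := by
            simp only [hf]
            rw [if_pos hh2]
          have h6 := hfT C (j, u) (by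
            rw [hT, mem_filter, mem_product, mem_range]; exact ⟨⟨hj, hu⟩, huj⟩)
          have h7 := hgs C
          linarith
      · push Not at h1
        obtain ⟨j, hj, huj, hvj, hh1⟩ := h1
        have h5 : f (j, v) C = (run L P C v).Z v := by
          simp only [hf]
          rw [if_pos hh1]
        have h6 := hfT C (j, v) (by
          rw [hT, mem_filter, mem_product, mem_range]; exact ⟨⟨hj, hv⟩, hvj⟩)
        have h7 := hgs C
        linarith
    · exact add_nonneg (hfs C) (hgs C)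
  have hd1 : (0 : ℝ) < ((h0 : ℝ) - k1) ^ k1 := by
    apply pow_pos
    have : (k1 : ℝ) < h0 := by exact_mod_cast hk1
    linarith
  have hd2 : (0 : ℝ) < ((B : ℝ) - 4 * h0 * k2) ^ k2 := by
    apply pow_pos
    have : ((4 * h0 * k2 : ℕ) : ℝ) < B := by exact_mod_cast hk2
    push_cast at this
    linarith
  have hb1 : 0 ≤ Cst P k1 * R ^ k1 / ((h0 : ℝ) - k1) ^ k1 :=
    div_nonneg (mul_nonneg (Cst_nonneg hG k1) (pow_nonneg hR0 _)) hd1.le
  have hb2 : 0 ≤ Cst P (2 * k2) * R ^ k2 / ((B : ℝ) - 4 * h0 * k2) ^ k2 :=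
    div_nonneg (mul_nonneg (Cst_nonneg hG _) (pow_nonneg hR0 _)) hd2.le
  have hcT : (T.card : ℝ) ≤ L.ls.card * L.N := by
    have h1 : T.card ≤ L.ls.card * L.N := by
      refine le_trans (card_filter_le _ _) ?_
      rw [card_product, card_range]
    exact_mod_cast h1
  have hcU : (U.card : ℝ) ≤ L.N := by
    have h1 : U.card ≤ L.N := by
      refine le_trans (card_filter_le _ _) ?_
      rw [card_range]
    exact_mod_cast h1
  calc Ex L P v (fun C => if ∃ u < L.N, u ≠ v ∧ 1 + P.e1 < (run L P C (tau L P v C)).Off u v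
        then (run L P C v).Z v else 0)
      ≤ Ex L P v (fun C => (∑ q ∈ T, f q C) + ∑ u ∈ U, g u C) := Ex_mono hG v _ _ hpt
    _ = (∑ q ∈ T, Ex L P v (f q)) + ∑ u ∈ U, Ex L P v (g u) := by
        rw [Ex_add, Ex_sum, Ex_sum]
    _ ≤ (∑ _q ∈ T, Cst P k1 * R ^ k1 / ((h0 : ℝ) - k1) ^ k1) +
        ∑ _u ∈ U, Cst P (2 * k2) * R ^ k2 / ((B : ℝ) - 4 * h0 * k2) ^ k2 := by
        refine add_le_add (sum_le_sum fun q hq => ?_) (sum_le_sum fun u hu => ?_)
        · rw [hT, mem_filter, mem_product, mem_range] at hq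
          rw [le_div_iff₀ hd1]
          exact hE4h q.1 hq.1.1 q.2 hq.1.2 hq.2
        · rw [hU, mem_filter, mem_range] at hu
          rw [le_div_iff₀ hd2]
          exact hE4c u hu.1 hu.2
    _ = (T.card : ℝ) * (Cst P k1 * R ^ k1 / ((h0 : ℝ) - k1) ^ k1) +
        (U.card : ℝ) * (Cst P (2 * k2) * R ^ k2 / ((B : ℝ) - 4 * h0 * k2) ^ k2) := by
        rw [sum_const, sum_const, nsmul_eq_mul, nsmul_eq_mul]
    _ ≤ _ := add_le_add (mul_le_mul_of_nonneg_right hcT hb1) (mul_le_mul_of_nonneg_right hcU hb2)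

end

end GPG
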